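import Pool.Agent.Helper43.GD.St

set_option autoImplicit false

namespace Pool.Agent.Helper79.GD.B4

open Pool.Agent.Helper43.GD

theorem hB4 (hB2 : StB2) (hG : StGNS) : StB4 := by
  intro L A _ _ Q M x hCB P hP
  obtain ⟨hR, hx, hN, hinv⟩ := id hCB
  have _ := hR.fin
  have _ : Finite Lˣ := inferInstance
  have h2 : (2 : L) ∉ P := fun h => hP.ne_top (Ideal.eq_top_of_isUnit_mem _ h hR.two)
  have hneg : (-1 : Lˣ) ≠ 1 := by
    intro h
    have h3 : ((-1 : Lˣ) : L) = ((1 : Lˣ) : L) := by rw [h]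
    rw [Units.val_neg, Units.val_one] at h3
    have h4 : (2 : L) = 0 := by linear_combination -h3
    exact h2 (h4 ▸ P.zero_mem)
  have hB : ∀ y ∈ Q.U, (∃ m : ℕ, y ^ m = -1) → Q.In (1 - (y : L)) := by
    rintro y hy ⟨m, hm⟩
    refine hB2 L A Q M x hCB y hy m ?_
    rw [← Units.val_pow_eq_pow_val, hm, Units.val_neg, Units.val_one]
  have dich : ∀ y ∈ Q.U, (∃ m : ℕ, y ^ m = -1) ∨ ∃ k, Odd k ∧ y ^ k = 1 := by
    intro y hy
    rcases Nat.even_or_odd (orderOf y) with he | ho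
    · left
      obtain ⟨r, hr⟩ := he
      have hpos : 0 < orderOf y := orderOf_pos y
      have hsq : (y ^ r) ^ 2 = 1 := by
        rw [← pow_mul, mul_two, ← hr, pow_orderOf_eq_one]
      have hsq' : ((y ^ r : Lˣ) : L) ^ 2 = 1 := by
        rw [← Units.val_pow_eq_pow_val, hsq, Units.val_one]
      rcases hinv (y ^ r) (Q.U.pow_mem hy r) hsq' with h | h
      · exfalso
        have h5 := Nat.le_of_dvd (by omega) (orderOf_dvd_of_pow_eq_one h)
        omega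
      · exact ⟨r, h⟩
    · exact Or.inr ⟨orderOf y, ho, pow_orderOf_eq_one y⟩
  have evmul : ∀ z ∈ Q.U, ∀ τ ∈ Q.U, (∃ k, Odd k ∧ z ^ k = 1) → (∃ m : ℕ, τ ^ m = -1) →
      ∃ m : ℕ, (z * τ) ^ m = -1 := by
    rintro z hz τ hτ ⟨k, hk, hzk⟩ ⟨m, hm⟩
    rcases dich (z * τ) (Q.U.mul_mem hz hτ) with h | ⟨n, hn, hzn⟩
    · exact h
    · exfalso
      have h1 : (z * τ) ^ (n * k) = 1 := by rw [pow_mul, hzn, one_pow]
      have h3 : z ^ (n * k) = 1 := by rw [mul_comm, pow_mul, hzk, one_pow]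
      rw [mul_pow, h3, one_mul] at h1
      have h4 : (-1 : Lˣ) ^ (n * k) = 1 := by
        rw [← hm, ← pow_mul, mul_comm, pow_mul, h1, one_pow]
      rw [Odd.neg_one_pow (hn.mul hk)] at h4
      exact hneg h4
  have hodd : ∀ z ∈ Q.U, (z : L) - 1 ∈ P → ∃ k, Odd k ∧ z ^ k = 1 := by
    intro z hz hzP
    rcases dich z hz with ⟨m, hm⟩ | h
    · exfalso
      have h3 : (z : L) ^ m - 1 ∈ P := by
        have h4 := sub_dvd_pow_sub_pow (z : L) 1 m
        rw [one_pow] at h4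
        exact Ideal.mem_of_dvd P h4 hzP
      rw [← Units.val_pow_eq_pow_val, hm, Units.val_neg, Units.val_one] at h3
      apply h2
      have h5 : (2 : L) = -(-1 - 1) := by ring
      rw [h5]
      exact P.neg_mem h3
    · exact h
  set D : L → Prop := fun δ => δ ∈ P ∧ Q.In (1 + δ) with hD
  have s1 : ∀ τ ∈ Q.U, (∃ m : ℕ, τ ^ m = -1) → ∀ u ∈ Q.U, (u : L) = 1 - τ → ∀ δ, D δ →
      D (-(τ : L) * ((u⁻¹ : Lˣ) : L) * δ) := by
    rintro τ hτ he u hu hue δ ⟨hδP, z, hz, hzδ⟩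
    have hzP : (z : L) - 1 ∈ P := by rw [hzδ]; simpa using hδP
    obtain ⟨v, hv, hve⟩ := hB (z * τ) (Q.U.mul_mem hz hτ) (evmul z hz τ hτ (hodd z hz hzP) he)
    refine ⟨P.mul_mem_left _ hδP, v * u⁻¹, Q.U.mul_mem hv (Q.U.inv_mem hu), ?_⟩
    have e := u.mul_inv
    rw [Units.val_mul, hve, Units.val_mul]
    linear_combination (-(τ : L) * ((u⁻¹ : Lˣ) : L)) * hzδ + e - ((u⁻¹ : Lˣ) : L) * hue
  have s2 : ∀ τ ∈ Q.U, (∃ m : ℕ, τ ^ m = -1) → ∀ u ∈ Q.U, (u : L) = 1 - τ → ∀ δ, D δ →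
      D (((u⁻¹ : Lˣ) : L) * δ) := by
    rintro τ hτ ⟨m, hm⟩ u hu hue δ hδ
    have e1 : ((-1 * τ⁻¹ * u)⁻¹ : Lˣ) = -1 * τ * u⁻¹ := by
      rw [mul_inv, mul_inv, inv_inv, inv_neg, inv_one]
    have e3 := τ.inv_mul
    have h3 := s1 τ⁻¹ (Q.U.inv_mem hτ) ⟨m, by rw [inv_pow, hm, inv_neg, inv_one]⟩ (-1 * τ⁻¹ * u)
      (Q.U.mul_mem (Q.U.mul_mem Q.neg (Q.U.inv_mem hτ)) hu) (by
        rw [Units.val_mul, Units.val_mul, Units.val_neg, Units.val_one, hue]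
        linear_combination e3) δ hδ
    have e2 : -((τ⁻¹ : Lˣ) : L) * (((-1 * τ⁻¹ * u)⁻¹ : Lˣ) : L) * δ = ((u⁻¹ : Lˣ) : L) * δ := by
      rw [e1, Units.val_mul, Units.val_mul, Units.val_neg, Units.val_one]
      linear_combination (((u⁻¹ : Lˣ) : L) * δ) * e3
    rw [e2] at h3
    exact h3
  have sp : ∀ t : Lˣ, (∀ δ, D δ → D ((t : L) * δ)) → ∀ (k : ℕ) (δ : L), D δ →
      D (((t ^ k : Lˣ) : L) * δ) := by
    intro t ht k
    induction k with
    | zero => intro δ hδ; simpa using hδ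
    | succ k ih =>
      intro δ hδ
      rw [pow_succ, Units.val_mul, mul_assoc]
      exact ih _ (ht _ hδ)
  have s3 : ∀ τ ∈ Q.U, (∃ m : ℕ, τ ^ m = -1) → ∀ u ∈ Q.U, (u : L) = 1 - τ → ∀ δ, D δ →
      D ((u : L) * δ) := by
    intro τ hτ he u hu hue δ hδ
    have h3 := sp u⁻¹ (s2 τ hτ he u hu hue) (orderOf u - 1) δ hδ
    have hpos : 0 < orderOf u := orderOf_pos u
    have h4 : (u⁻¹ : Lˣ) ^ (orderOf u - 1) = u := by
      have h5 : (u⁻¹ : Lˣ) ^ (orderOf u - 1) * u⁻¹ = 1 := by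
        rw [← pow_succ, Nat.sub_add_cancel hpos, inv_pow, pow_orderOf_eq_one, inv_one]
      rwa [mul_inv_eq_one] at h5
    rw [h4] at h3
    exact h3
  have s4 : ∀ τ ∈ Q.U, (∃ m : ℕ, τ ^ m = -1) → ∀ δ, D δ → D (-(τ : L) * δ) := by
    intro τ hτ he δ hδ
    obtain ⟨u, hu, hue⟩ := hB τ hτ he
    have h3 := s1 τ hτ he u hu hue _ (s3 τ hτ he u hu hue δ hδ)
    have e := u.inv_mul
    have e2 : -(τ : L) * ((u⁻¹ : Lˣ) : L) * ((u : L) * δ) = -(τ : L) * δ := by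
      linear_combination (-(τ : L) * δ) * e
    rw [e2] at h3
    exact h3
  have hi := (hG L M x hR).2.2.2.1
  have hiU : x ^ (M / 2) ∈ Q.U := Q.U.pow_mem hx _
  have hiE : ∃ m : ℕ, (x ^ (M / 2)) ^ m = -1 := by
    refine ⟨2, Units.ext ?_⟩
    rw [Units.val_pow_eq_pow_val, hi, Units.val_neg, Units.val_one]
  have s5 : ∀ δ, D δ → D (-δ) := by
    intro δ hδ
    have h3 := s4 _ hiU hiE _ (s4 _ hiU hiE δ hδ)
    have e2 : -((x ^ (M / 2) : Lˣ) : L) * (-((x ^ (M / 2) : Lˣ) : L) * δ) = -δ := by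
      linear_combination δ * hi
    rw [e2] at h3
    exact h3
  have s6 : ∀ u ∈ Q.U, ∀ δ, D δ → D ((u : L) * δ) := by
    intro u hu δ hδ
    rcases dich u hu with he | ⟨k, hk, huk⟩
    · have h3 := s4 u hu he _ (s5 δ hδ)
      rwa [neg_mul_neg] at h3
    · have hmem : -u ∈ Q.U := by
        have := Q.U.mul_mem Q.neg hu
        rwa [neg_one_mul] at this
      have h3 := s4 (-u) hmem ⟨k, by rw [hk.neg_pow, huk]⟩ δ hδ
      rwa [Units.val_neg, neg_neg] at h3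
  have s7 : ∀ δ δ', D δ → D δ' → D (δ + δ') := by
    rintro δ δ' ⟨hδP, z, hz, hzδ⟩ hδ'
    obtain ⟨_, z', hz', hzδ'⟩ := s6 z⁻¹ (Q.U.inv_mem hz) δ' hδ'
    refine ⟨P.add_mem hδP hδ'.1, z * z', Q.U.mul_mem hz hz', ?_⟩
    have e := z.mul_inv
    rw [Units.val_mul]
    linear_combination (z : L) * hzδ' + hzδ + δ' * e
  have s0 : D 0 := ⟨P.zero_mem, 1, Q.U.one_mem, by simp⟩
  let S : AddSubgroup L :=
    { carrier := {δ | D δ}
      add_mem' := fun {a b} ha hb => s7 a b ha hb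
      zero_mem' := s0
      neg_mem' := fun {a} ha => s5 a ha }
  refine ⟨{ carrier := {δ | D δ}
            add_mem' := fun {a b} ha hb => s7 a b ha hb
            zero_mem' := s0
            smul_mem' := ?_ }, fun δ => Iff.rfl⟩
  intro c δ hδ
  obtain ⟨m, n, hc⟩ := hR.span c
  have h3 : m • δ + n • ((x : L) * δ) ∈ S :=
    S.add_mem (S.zsmul_mem hδ m) (S.zsmul_mem (s6 x hx δ hδ) n)
  have h4 : m • δ + n • ((x : L) * δ) = c • δ := by
    rw [zsmul_eq_mul, zsmul_eq_mul, smul_eq_mul, hc]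
    ring
  rw [h4] at h3
  exact h3

end Pool.Agent.Helper79.GD.B4
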